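import Mathlib
import Pool.Agent.W189.RS.Cnt

/-! Satake parameters of cusp forms on `GL(3)` over a number field. -/

set_option autoImplicit false

namespace Pool.Agent.TH861.GL3

open NumberField IsDedekindDomain

variable {K : Type*} [Field K] [NumberField K]

/-- the primes (finite places) of `K` outside `S` -/
abbrev PL (S : Finset (HeightOneSpectrum (𝓞 K))) := {v : HeightOneSpectrum (𝓞 K) // v ∉ S}

/-- the norm of a prime -/
noncomputable def qq (v : HeightOneSpectrum (𝓞 K)) : ℕ := Ideal.absNorm v.asIdeal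

/-- `∑_{v ∉ S} ∑_{k ≥ 1} (|∑_i α_{i,v}^k|² - 1) / k · q_v^{-ks}`, the logarithm of the partial adjoint
`L`-function `L^S(s, π, Ad) = ∏_{v ∉ S} (1 - q_v^{-s}) ∏_{i,j} (1 - α_{i,v} conj(α_{j,v}) q_v^{-s})⁻¹`. -/
noncomputable def logAd {S : Finset (HeightOneSpectrum (𝓞 K))} (α : PL S → Fin 3 → ℂ) (s : ℂ) : ℂ :=
  ∑' x : PL S × ℕ, (((‖∑ i, α x.1 i ^ (x.2 + 1)‖ ^ 2 - 1) / ((x.2 : ℝ) + 1) : ℝ) : ℂ) *
    (((qq x.1.1 : ℕ) : ℂ) ^ (-s)) ^ (x.2 + 1)

/-- Properties of the Satake parameters `α v`, `v ∉ S`, of a unitary cuspidal automorphic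
representation `π` of `GL_3` over the number field `K`. -/
structure CuspidalGL3 {S : Finset (HeightOneSpectrum (𝓞 K))} (α : PL S → Fin 3 → ℂ) : Prop where
  /-- the local components are unitary -/
  unitary : ∀ v, (∀ i, α v i ≠ 0) ∧
    Multiset.map (fun i => ((starRingEnd ℂ) (α v i))⁻¹) Finset.univ.val =
      Multiset.map (α v) Finset.univ.val
  /-- absolute convergence of `L(s, π × π~)` for `Re s > 1` -/
  summable : ∀ σ : ℝ, 1 < σ → Summable fun x : PL S × ℕ =>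
    ‖∑ i, α x.1 i ^ (x.2 + 1)‖ ^ 2 / ((x.2 : ℝ) + 1) * (((qq x.1.1 : ℕ) : ℝ) ^ (-σ)) ^ (x.2 + 1)
  /-- the adjoint `L`-function is holomorphic in `Re s ≥ 1/2` -/
  adjoint : ∃ A : ℂ → ℂ, AnalyticOnNhd ℂ A {s | 1 / 2 ≤ s.re} ∧
    ∀ s : ℂ, 1 < s.re → A s = Complex.exp (logAd α s)

/-- `π_v` is tempered -/
def Tempered {S : Finset (HeightOneSpectrum (𝓞 K))} (α : PL S → Fin 3 → ℂ) (v : PL S) : Prop :=
  ∀ i, ‖α v i‖ = 1

/-- `max (0, 1 - |a_v|²)`, `a_v` the trace of the Satake parameter -/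
noncomputable def small {S : Finset (HeightOneSpectrum (𝓞 K))} (α : PL S → Fin 3 → ℂ) (v : PL S) : ℝ :=
  max 0 (1 - ‖∑ i, α v i‖ ^ 2)

end Pool.Agent.TH861.GL3
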