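import Mathlib
import Pool.Agent.H921R2.TatePole.Dedekind

/-! Partial summation, and the divergence of the sum of the reciprocals of the norms of the primes. -/

set_option autoImplicit false

namespace Pool.Agent.TH861.GL3

open Filter Topology Finset

/-- partial summation for a finite set -/
theorem abel_identity {ι : Type*} (G : Finset ι) (N : ι → ℕ) (hN : ∀ i ∈ G, 1 ≤ N i) (M : ℕ)
    (hM : ∀ i ∈ G, N i ≤ M) (f : ℕ → ℝ) :
    ∑ i ∈ G, f (N i) = (G.card : ℝ) * f M +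
      ∑ n ∈ Ico 1 M, ((G.filter fun i => N i ≤ n).card : ℝ) * (f n - f (n + 1)) := by
  have h1 : ∀ i ∈ G, f (N i) = f M + ∑ n ∈ Ico 1 M, if N i ≤ n then f n - f (n + 1) else 0 := by
    intro i hi
    have h2 : ∑ n ∈ Ico (N i) M, (f n - f (n + 1)) = f (N i) - f M := by
      rw [Finset.sum_Ico_eq_sub _ (hM i hi), Finset.sum_range_sub', Finset.sum_range_sub']
      ring
    rw [← Finset.sum_filter]
    have h3 : (Ico 1 M).filter (fun n => N i ≤ n) = Ico (N i) M := by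
      ext n
      have := hN i hi
      simp only [mem_filter, mem_Ico]
      omega
    rw [h3, h2]
    ring
  rw [Finset.sum_congr rfl h1, Finset.sum_add_distrib, Finset.sum_const, nsmul_eq_mul,
    Finset.sum_comm]
  congr 1
  refine Finset.sum_congr rfl fun n _ => ?_
  rw [← Finset.sum_filter, Finset.sum_const, nsmul_eq_mul]

theorem sum_le_of_count {ι κ : Type*} {N1 : ι → ℕ} {N2 : κ → ℕ} (h1 : ∀ i, 1 ≤ N1 i)
    (h2 : ∀ j, 1 ≤ N2 j) (hf1 : ∀ b : ℕ, {i | N1 i ≤ b}.Finite) (hf2 : ∀ b : ℕ, {j | N2 j ≤ b}.Finite)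
    {θ C : ℝ} (hθ : 0 ≤ θ)
    (h : ∀ n : ℕ, ({i | N1 i ≤ n}.ncard : ℝ) ≤ θ * ({j | N2 j ≤ n}.ncard : ℝ) + C)
    {t : ℝ} (ht : 0 < t) (hs : Summable fun j => (N2 j : ℝ) ^ (-t)) (F : Finset ι) :
    ∑ i ∈ F, (N1 i : ℝ) ^ (-t) ≤ θ * ∑' j, (N2 j : ℝ) ^ (-t) + C := by
  classical
  obtain ⟨M, hM⟩ : ∃ M : ℕ, M = max 1 (F.sup N1) := ⟨_, rfl⟩
  have hM1 : 1 ≤ M := by rw [hM]; exact le_max_left _ _
  have hFM : ∀ i ∈ F, N1 i ≤ M := fun i hi => by
    rw [hM]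
    exact (Finset.le_sup hi).trans (le_max_right _ _)
  have hΔ : ∀ n : ℕ, 1 ≤ n → 0 ≤ (n : ℝ) ^ (-t) - ((n + 1 : ℕ) : ℝ) ^ (-t) := by
    intro n hn
    have hn' : (0 : ℝ) < n := by exact_mod_cast hn
    rw [sub_nonneg]
    exact Real.rpow_le_rpow_of_nonpos hn' (by push_cast; linarith) (by linarith)
  have e1 := abel_identity F N1 (fun i _ => h1 i) M hFM (fun n => (n : ℝ) ^ (-t))
  obtain ⟨G, hG⟩ : ∃ G : Finset κ, G = (hf2 M).toFinset := ⟨_, rfl⟩
  have hGm : ∀ j, j ∈ G ↔ N2 j ≤ M := fun j => by rw [hG]; simp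
  have e2 := abel_identity G N2 (fun j _ => h2 j) M (fun j hj => (hGm j).1 hj)
    (fun n => (n : ℝ) ^ (-t))
  have e3 := abel_identity ({()} : Finset Unit) (fun _ => 1) (fun _ _ => le_rfl) M
    (fun _ _ => hM1) (fun n => (n : ℝ) ^ (-t))
  have c1 : ∀ n, ((F.filter fun i => N1 i ≤ n).card : ℝ) ≤ ({i | N1 i ≤ n}.ncard : ℝ) := by
    intro n
    have : ((F.filter fun i => N1 i ≤ n) : Set ι).ncard ≤ {i | N1 i ≤ n}.ncard := by
      apply Set.ncard_le_ncard _ (hf1 n)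
      intro i hi
      simp only [coe_filter, Set.mem_ofPred_eq] at hi
      exact hi.2
    rw [Set.ncard_coe_finset] at this
    exact_mod_cast this
  have c2 : ∀ n, n ≤ M → ({j | N2 j ≤ n}.ncard : ℝ) = ((G.filter fun j => N2 j ≤ n).card : ℝ) := by
    intro n hn
    rw [← Set.ncard_coe_finset]
    congr 2
    ext j
    simp only [coe_filter, Set.mem_ofPred_eq, hGm]
    constructor
    · intro hj
      exact ⟨hj.trans hn, hj⟩
    · exact fun hj => hj.2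
  have k1 : (F.card : ℝ) ≤ θ * (G.card : ℝ) + C := by
    have a1 := c1 M
    rw [Finset.filter_true_of_mem (fun i hi => hFM i hi)] at a1
    have a2 := c2 M le_rfl
    rw [Finset.filter_true_of_mem (fun j hj => (hGm j).1 hj)] at a2
    rw [← a2]
    exact a1.trans (h M)
  have k2 : ∀ n ∈ Ico 1 M, ((F.filter fun i => N1 i ≤ n).card : ℝ) ≤
      θ * ((G.filter fun j => N2 j ≤ n).card : ℝ) + C := by
    intro n hn
    rw [mem_Ico] at hn
    rw [← c2 n hn.2.le]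
    exact (c1 n).trans (h n)
  have hMpos : (0 : ℝ) ≤ (M : ℝ) ^ (-t) := by positivity
  have l1 : ∑ i ∈ F, (N1 i : ℝ) ^ (-t) ≤ θ * ∑ j ∈ G, (N2 j : ℝ) ^ (-t) + C := by
    have e3' : (1 : ℝ) = (M : ℝ) ^ (-t) + ∑ n ∈ Ico 1 M, ((n : ℝ) ^ (-t) - ((n + 1 : ℕ) : ℝ) ^ (-t)) := by
      have e4 : ∀ n ∈ Ico 1 M, ((({()} : Finset Unit).filter fun _ => 1 ≤ n).card : ℝ) = 1 := by
        intro n hn
        rw [mem_Ico] at hn
        rw [Finset.filter_true_of_mem (fun _ _ => hn.1)]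
        simp
      simp only [Finset.sum_singleton, Nat.cast_one, Real.one_rpow, card_singleton, one_mul] at e3
      rw [e3]
      congr 1
      refine Finset.sum_congr rfl fun n hn => ?_
      rw [e4 n hn, one_mul]
    calc ∑ i ∈ F, (N1 i : ℝ) ^ (-t) = _ := e1
      _ ≤ (θ * (G.card : ℝ) + C) * (M : ℝ) ^ (-t) + ∑ n ∈ Ico 1 M,
          (θ * ((G.filter fun j => N2 j ≤ n).card : ℝ) + C) *
            ((n : ℝ) ^ (-t) - ((n + 1 : ℕ) : ℝ) ^ (-t)) := by
        refine add_le_add (mul_le_mul_of_nonneg_right k1 hMpos) (Finset.sum_le_sum fun n hn => ?_)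
        exact mul_le_mul_of_nonneg_right (k2 n hn) (hΔ n (mem_Ico.1 hn).1)
      _ = θ * ((G.card : ℝ) * (M : ℝ) ^ (-t) + ∑ n ∈ Ico 1 M,
            ((G.filter fun j => N2 j ≤ n).card : ℝ) * ((n : ℝ) ^ (-t) - ((n + 1 : ℕ) : ℝ) ^ (-t))) +
          C * ((M : ℝ) ^ (-t) + ∑ n ∈ Ico 1 M, ((n : ℝ) ^ (-t) - ((n + 1 : ℕ) : ℝ) ^ (-t))) := by
        simp only [add_mul, Finset.sum_add_distrib, mul_add, Finset.mul_sum, mul_assoc]
        ring
      _ = θ * ∑ j ∈ G, (N2 j : ℝ) ^ (-t) + C := by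
        rw [← e3', mul_one]
        congr 2
        exact e2.symm
  refine l1.trans ?_
  have l2 : ∑ j ∈ G, (N2 j : ℝ) ^ (-t) ≤ ∑' j, (N2 j : ℝ) ^ (-t) :=
    hs.sum_le_tsum G fun j _ => by positivity
  have := mul_le_mul_of_nonneg_left l2 hθ
  linarith

section

open NumberField IsDedekindDomain Pool.Agent.H921R2.TatePole

variable (K : Type*) [Field K] [NumberField K]

theorem not_summable_inv :
    ¬ Summable fun v : HeightOneSpectrum (𝓞 K) => (nm v : ℝ) ^ (-(1 : ℝ)) := by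
  intro hs
  obtain ⟨C, hC⟩ := prime_sum_bdd (K := K)
  have h1 : ∀ᶠ x : ℝ in 𝓝[>] 1, Lam x ≤ C + ∑' v : HeightOneSpectrum (𝓞 K), (nm v : ℝ) ^ (-(1 : ℝ)) := by
    filter_upwards [hC, self_mem_nhdsWithin] with x hx hx1
    have hx1' : (1 : ℝ) < x := hx1
    have h2 := (abs_le.1 hx).1
    have h3 : ∑' v : HeightOneSpectrum (𝓞 K), (nm v : ℝ) ^ (-x) ≤
        ∑' v : HeightOneSpectrum (𝓞 K), (nm v : ℝ) ^ (-(1 : ℝ)) := by
      refine Summable.tsum_le_tsum (fun v => ?_) (nm_summable hx1') hs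
      have : (1 : ℝ) ≤ nm v := by
        have := two_le_nm v
        exact_mod_cast (by omega : 1 ≤ nm v)
      exact Real.rpow_le_rpow_of_exponent_le this (by linarith)
    linarith
  have h2 := Lam_tendsto.eventually (eventually_gt_atTop
    (C + ∑' v : HeightOneSpectrum (𝓞 K), (nm v : ℝ) ^ (-(1 : ℝ))))
  obtain ⟨x, hx1, hx2⟩ := (h1.and h2).exists
  linarith

theorem finite_nm_le (b : ℕ) : {v : HeightOneSpectrum (𝓞 K) | nm v ≤ b}.Finite := by
  have h1 := Ideal.finite_setOfPred_absNorm_le (S := 𝓞 K) b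
  refine Set.Finite.of_finite_image (f := fun v : HeightOneSpectrum (𝓞 K) => v.asIdeal)
    (h1.subset ?_) (fun v _ w _ hvw => HeightOneSpectrum.ext hvw)
  rintro _ ⟨v, hv, rfl⟩
  exact hv

end

end Pool.Agent.TH861.GL3
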