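import Mathlib
import Pool.Agent.W189.TP.Fin

/-! Local inequalities for unitary Satake parameters of `GL(3)`. -/

set_option autoImplicit false

namespace Pool.Agent.TH861.GL3

open Pool.Agent.W189 Pool.Agent.W189.TP

/-- shape of a non-tempered unitary parameter -/
theorem decomp {α : Fin 3 → ℂ} (hU : RS.Unitary α) (h : ¬ ∀ i, ‖α i‖ = 1) :
    ∃ a b c : ℂ, a ≠ 0 ∧ b = ((starRingEnd ℂ) a)⁻¹ ∧ ‖a‖ * ‖b‖ * ‖c‖ = 1 ∧
      ∀ k : ℕ, ∑ i, α i ^ k = a ^ k + b ^ k + c ^ k := by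
  push Not at h
  obtain ⟨i, hi⟩ := h
  have h1 : ((starRingEnd ℂ) (α i))⁻¹ ∈ Multiset.map α Finset.univ.val := by
    rw [← hU.2]
    exact Multiset.mem_map.2 ⟨i, Finset.mem_univ_val _, rfl⟩
  obtain ⟨j, _, hj⟩ := Multiset.mem_map.1 h1
  have h2 := prod_norm hU
  have hi0 : 0 < ‖α i‖ := norm_pos_iff.2 (hU.1 i)
  have hij : i ≠ j := by
    rintro rfl
    have h3 := congrArg norm hj
    rw [norm_inv, RCLike.norm_conj] at h3
    apply hi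
    have h4 : ‖α i‖ * ‖α i‖ = 1 := by
      nth_rewrite 1 [h3]
      exact inv_mul_cancel₀ hi0.ne'
    nlinarith
  rw [Fin.prod_univ_three] at h2
  simp_rw [Fin.sum_univ_three]
  have hcases : (i = 0 ∧ j = 1) ∨ (i = 0 ∧ j = 2) ∨ (i = 1 ∧ j = 0) ∨ (i = 1 ∧ j = 2) ∨
      (i = 2 ∧ j = 0) ∨ (i = 2 ∧ j = 1) := by
    revert hij
    clear hj hi hi0 h1
    revert i j
    decide
  rcases hcases with ⟨rfl, rfl⟩ | ⟨rfl, rfl⟩ | ⟨rfl, rfl⟩ | ⟨rfl, rfl⟩ | ⟨rfl, rfl⟩ | ⟨rfl, rfl⟩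
  · exact ⟨_, _, _, hU.1 0, hj, h2, fun k => rfl⟩
  · exact ⟨_, _, α 1, hU.1 0, hj, by linarith, fun k => by ring⟩
  · exact ⟨_, _, α 2, hU.1 1, hj, by linarith, fun k => by ring⟩
  · exact ⟨_, _, α 0, hU.1 1, hj, by linarith, fun k => by ring⟩
  · exact ⟨_, _, α 1, hU.1 2, hj, by linarith, fun k => by ring⟩
  · exact ⟨_, _, α 0, hU.1 2, hj, by linarith, fun k => by ring⟩

theorem normSq_comb (σ : ℝ) {u c : ℂ} (hu : ‖u‖ = 1) (hc : ‖c‖ = 1) :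
    ‖(σ : ℂ) * u + c‖ ^ 2 = σ ^ 2 + 2 * σ * (u * (starRingEnd ℂ) c).re + 1 := by
  have h1 := Complex.normSq_add ((σ : ℂ) * u) c
  rw [Complex.normSq_eq_norm_sq, Complex.normSq_eq_norm_sq, Complex.normSq_eq_norm_sq, norm_mul, hu, hc,
    Complex.norm_real, Real.norm_eq_abs, mul_one, sq_abs, mul_assoc, Complex.re_ofReal_mul] at h1
  rw [h1]
  ring

theorem re_sq {z : ℂ} (hz : ‖z‖ = 1) : (z ^ 2).re = 2 * z.re ^ 2 - 1 := by
  have h1 : Complex.normSq z = 1 := by rw [Complex.normSq_eq_norm_sq, hz, one_pow]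
  rw [Complex.normSq_apply] at h1
  rw [sq, Complex.mul_re]
  nlinarith

/-- the coefficients of `log L(s, Ad)` at `q^{-s}` and `q^{-2s}`, non-tempered case -/
theorem nontemp {α : Fin 3 → ℂ} (hU : RS.Unitary α) (h : ¬ ∀ i, ‖α i‖ = 1) {w : ℝ} (hw0 : 0 ≤ w)
    (hw : w ≤ 1 / 2) :
    4 * w ≤ (‖∑ i, α i ^ 1‖ ^ 2 - 1) + (‖∑ i, α i ^ 2‖ ^ 2 - 1) / 2 * w := by
  obtain ⟨a, b, c, ha, hb, hp, hk⟩ := decomp hU h
  rw [hk 1, hk 2]
  simp only [pow_one]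
  obtain ⟨r, hr⟩ : ∃ r : ℝ, r = ‖a‖ := ⟨_, rfl⟩
  have hr0 : 0 < r := by rw [hr]; exact norm_pos_iff.2 ha
  have hrC : (r : ℂ) ≠ 0 := by exact_mod_cast hr0.ne'
  obtain ⟨u, hu⟩ : ∃ u : ℂ, u = a / r := ⟨_, rfl⟩
  have hun : ‖u‖ = 1 := by
    rw [hu, norm_div, Complex.norm_real, Real.norm_of_nonneg hr0.le, ← hr, div_self hr0.ne']
  have hau : a = r * u := by rw [hu]; field_simp
  have hucu : u * (starRingEnd ℂ) u = 1 := by
    rw [Complex.mul_conj, Complex.normSq_eq_norm_sq, hun]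
    norm_num
  have hbu : b = (r⁻¹ : ℝ) * u := by
    rw [hb, hau, map_mul, Complex.conj_ofReal, mul_inv]
    push_cast
    congr 1
    exact (eq_inv_of_mul_eq_one_left hucu).symm
  have hbn : ‖b‖ = r⁻¹ := by rw [hb, norm_inv, RCLike.norm_conj, ← hr]
  have hcn : ‖c‖ = 1 := by
    rw [hbn, ← hr, mul_inv_cancel₀ hr0.ne', one_mul] at hp
    exact hp
  obtain ⟨z, hz⟩ : ∃ z : ℂ, z = u * (starRingEnd ℂ) c := ⟨_, rfl⟩
  have hzn : ‖z‖ = 1 := by rw [hz, norm_mul, RCLike.norm_conj, hun, hcn, one_mul]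
  have e1 : a + b + c = ((r + r⁻¹ : ℝ) : ℂ) * u + c := by
    rw [hau, hbu]
    push_cast
    ring
  have e2 : a ^ 2 + b ^ 2 + c ^ 2 = (((r + r⁻¹) ^ 2 - 2 : ℝ) : ℂ) * u ^ 2 + c ^ 2 := by
    rw [hau, hbu]
    push_cast
    field_simp
    ring
  rw [e1, e2, normSq_comb _ hun hcn, normSq_comb _ (by rw [norm_pow, hun, one_pow])
    (by rw [norm_pow, hcn, one_pow]), map_pow, ← mul_pow, ← hz, re_sq hzn]
  have hσ : 2 ≤ r + r⁻¹ := by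
    have h1 : r * r⁻¹ = 1 := mul_inv_cancel₀ hr0.ne'
    have h2 : 0 < r⁻¹ := inv_pos.2 hr0
    nlinarith [sq_nonneg (r - r⁻¹)]
  have ht1 : -1 ≤ z.re := by
    have := (abs_le.1 (Complex.abs_re_le_norm z)).1
    linarith
  have ht2 : z.re ≤ 1 := by
    have := (abs_le.1 (Complex.abs_re_le_norm z)).2
    linarith
  generalize r + r⁻¹ = σ at hσ
  generalize z.re = t at ht1 ht2
  have hx : 4 + 4 * t ≤ σ ^ 2 + 2 * σ * t + 1 - 1 := by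
    nlinarith [mul_nonneg (sub_nonneg.2 hσ) (by linarith : (0 : ℝ) ≤ σ + 2 + 2 * t)]
  have hτ : 2 ≤ σ ^ 2 - 2 := by nlinarith
  generalize σ ^ 2 - 2 = τ at hτ
  have hy : 4 * t ^ 2 ≤ (τ ^ 2 + 2 * τ * (2 * t ^ 2 - 1) + 1 - 1) / 2 := by
    nlinarith [mul_nonneg (by linarith : (0 : ℝ) ≤ τ) (sub_nonneg.2 hτ),
      mul_nonneg (sub_nonneg.2 hτ) (sq_nonneg t)]
  have h1 := mul_le_mul_of_nonneg_right hy hw0
  have h2 : 0 ≤ (1 + t) * (1 - w * (1 - t)) := by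
    apply mul_nonneg (by linarith)
    nlinarith
  nlinarith

/-- all power sums of a non-tempered parameter are large -/
theorem nontemp_pow {α : Fin 3 → ℂ} (hU : RS.Unitary α) (h : ¬ ∀ i, ‖α i‖ = 1) (k : ℕ) :
    0 ≤ ‖∑ i, α i ^ k‖ ^ 2 - 1 := by
  have := pw3 hU h k
  nlinarith

/-- second power sum of a tempered parameter -/
theorem temp_two {α : Fin 3 → ℂ} (h : ∀ i, ‖α i‖ = 1) :
    2 * ‖∑ i, α i ^ 1‖ - ‖∑ i, α i ^ 1‖ ^ 2 ≤ ‖∑ i, α i ^ 2‖ := by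
  simp_rw [Fin.sum_univ_three, pow_one]
  have hc : ∀ i, α i * (starRingEnd ℂ) (α i) = 1 := by
    intro i
    rw [Complex.mul_conj, Complex.normSq_eq_norm_sq, h i]
    norm_num
  have e : 2 * ((α 0 * α 1 * α 2) * (starRingEnd ℂ) (α 0 + α 1 + α 2)) =
      (α 0 + α 1 + α 2) ^ 2 - (α 0 ^ 2 + α 1 ^ 2 + α 2 ^ 2) := by
    rw [map_add, map_add]
    linear_combination 2 * (α 1 * α 2) * hc 0 + 2 * (α 0 * α 2) * hc 1 + 2 * (α 0 * α 1) * hc 2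
  have h1 := congrArg norm e
  rw [norm_mul, norm_mul, RCLike.norm_conj, norm_mul, norm_mul, h 0, h 1, h 2] at h1
  have h2 := norm_sub_le ((α 0 + α 1 + α 2) ^ 2) (α 0 ^ 2 + α 1 ^ 2 + α 2 ^ 2)
  rw [← h1, norm_pow] at h2
  simp only [RCLike.norm_ofNat, mul_one, one_mul] at h2
  linarith

/-- the first two coefficients, tempered case -/
theorem temp_low {α : Fin 3 → ℂ} (h : ∀ i, ‖α i‖ = 1) {w : ℝ} (hw0 : 0 ≤ w) (hw : w ≤ 1) :
    -(max 0 (1 - ‖∑ i, α i ^ 1‖ ^ 2) * (1 + w)) ≤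
      (‖∑ i, α i ^ 1‖ ^ 2 - 1) + (‖∑ i, α i ^ 2‖ ^ 2 - 1) / 2 * w := by
  have h2 := temp_two h
  have hA : 0 ≤ ‖∑ i, α i ^ 1‖ := norm_nonneg _
  have hB : 0 ≤ ‖∑ i, α i ^ 2‖ := norm_nonneg _
  generalize ‖∑ i, α i ^ 1‖ = A at *
  generalize ‖∑ i, α i ^ 2‖ = B at *
  have hB2 : -1 ≤ B ^ 2 - 1 := by nlinarith
  rcases le_or_gt 2 A with h3 | h3
  · have e : max 0 (1 - A ^ 2) = 0 := max_eq_left (by nlinarith)
    rw [e, zero_mul, neg_zero]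
    nlinarith
  · -- `B ^ 2 - 1 ≥ -2 (A - 1) ^ 2`
    have h4 : -(2 * (A - 1) ^ 2) ≤ B ^ 2 - 1 := by
      have h5 : 0 ≤ 2 * A - A ^ 2 := by nlinarith
      have h6 : (2 * A - A ^ 2) ^ 2 ≤ B ^ 2 := pow_le_pow_left₀ h5 h2 2
      nlinarith [sq_nonneg ((A - 1) ^ 2)]
    rcases le_or_gt 1 A with h5 | h5
    · have e : max 0 (1 - A ^ 2) = 0 := max_eq_left (by nlinarith)
      rw [e, zero_mul, neg_zero]
      have h6 : -((A - 1) ^ 2) * w ≤ (B ^ 2 - 1) / 2 * w :=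
        mul_le_mul_of_nonneg_right (by linarith) hw0
      have h7 : (A - 1) ^ 2 * w ≤ (A - 1) * 1 := by
        have : (A - 1) ^ 2 * w ≤ (A - 1) ^ 2 * 1 := mul_le_mul_of_nonneg_left hw (sq_nonneg _)
        nlinarith
      nlinarith
    · have e : max 0 (1 - A ^ 2) = 1 - A ^ 2 := max_eq_right (by nlinarith)
      rw [e]
      have h6 : -((A - 1) ^ 2) * w ≤ (B ^ 2 - 1) / 2 * w :=
        mul_le_mul_of_nonneg_right (by linarith) hw0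
      have h7 : (A - 1) ^ 2 * w ≤ (1 - A ^ 2) * w := by
        refine mul_le_mul_of_nonneg_right ?_ hw0
        nlinarith
      nlinarith

end Pool.Agent.TH861.GL3
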