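import Mathlib
import Pool.Agent.TH861.GL3.Local
import Pool.Agent.TH861.GL3.Count
import Pool.Agent.TH861.GL3.Defs

/-! The main inequality. -/

set_option autoImplicit false

namespace Pool.Agent.TH861.GL3

open NumberField IsDedekindDomain Filter Topology
open Pool.Agent.W189 Pool.Agent.W189.TP

variable {K : Type*} [Field K] [NumberField K] {S : Finset (HeightOneSpectrum (𝓞 K))}

theorem two_le_qq (v : HeightOneSpectrum (𝓞 K)) : 2 ≤ qq v := H921R2.TatePole.two_le_nm v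

theorem qq_pos (v : HeightOneSpectrum (𝓞 K)) : (0 : ℝ) < qq v := by
  have := two_le_qq v
  exact_mod_cast (by omega : 0 < qq v)

theorem one_lt_qq (v : HeightOneSpectrum (𝓞 K)) : (1 : ℝ) < qq v := by
  have := two_le_qq v
  exact_mod_cast (by omega : 1 < qq v)

theorem qq_rpow_le (v : HeightOneSpectrum (𝓞 K)) {σ : ℝ} (hσ : 0 ≤ σ) :
    (qq v : ℝ) ^ (-σ) ≤ 2 ^ (-σ) := by
  have hp : (2 : ℝ) ≤ (qq v : ℝ) := by exact_mod_cast two_le_qq v
  exact Real.rpow_le_rpow_of_nonpos (by norm_num) hp (by linarith)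

theorem summable_qq {σ : ℝ} (hσ : 1 < σ) : Summable fun v : PL S => (qq v.1 : ℝ) ^ (-σ) :=
  (H921R2.TatePole.nm_summable (K := K) hσ).comp_injective Subtype.val_injective

/-- `log (q_v ^ (k + 1))` -/
noncomputable def LL (x : PL S × ℕ) : ℝ := ((x.2 : ℝ) + 1) * Real.log (qq x.1.1 : ℝ)

theorem LL_nonneg (x : PL S × ℕ) : 0 ≤ LL x := by
  unfold LL
  have := Real.log_nonneg (one_lt_qq x.1.1).le
  positivity

theorem exp_LL (x : PL S × ℕ) (s : ℂ) :
    Complex.exp (-(s * LL x)) = (((qq x.1.1 : ℕ) : ℂ) ^ (-s)) ^ (x.2 + 1) := by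
  have hp : ((qq x.1.1 : ℕ) : ℂ) ≠ 0 := by
    have := two_le_qq x.1.1
    exact_mod_cast (by omega : qq x.1.1 ≠ 0)
  rw [Complex.cpow_def_of_ne_zero hp, ← Complex.exp_nat_mul]
  congr 1
  unfold LL
  push_cast
  ring

theorem rexp_LL (x : PL S × ℕ) (σ : ℝ) :
    Real.exp (-(σ * LL x)) = ((qq x.1.1 : ℝ) ^ (-σ)) ^ (x.2 + 1) := by
  rw [Real.rpow_def_of_pos (qq_pos x.1.1), ← Real.exp_nat_mul]
  congr 1
  unfold LL
  push_cast
  ring

theorem two_rpow_lt {σ : ℝ} (hσ : 0 < σ) : (2 : ℝ) ^ (-σ) < 1 :=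
  Real.rpow_lt_one_of_one_lt_of_neg (by norm_num) (by linarith)

/-- summability over prime powers from summability over primes -/
theorem summable_pp (B : PL S → ℝ) (hB : ∀ p, 0 ≤ B p) {σ : ℝ} (hσ : 0 < σ)
    (h : Summable fun p : PL S => B p * (qq p.1 : ℝ) ^ (-σ)) :
    Summable fun x : PL S × ℕ => B x.1 * Real.exp (-(σ * LL x)) := by
  have h2 := two_rpow_lt hσ
  have hlt : ∀ p : PL S, (qq p.1 : ℝ) ^ (-σ) < 1 := fun p => (qq_rpow_le p.1 hσ.le).trans_lt h2
  rw [summable_prod_of_nonneg (fun x => mul_nonneg (hB x.1) (Real.exp_pos _).le)]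
  have hg : ∀ p : PL S, HasSum (fun k : ℕ => B p * Real.exp (-(σ * LL (p, k))))
      (B p * ((qq p.1 : ℝ) ^ (-σ) * (1 - (qq p.1 : ℝ) ^ (-σ))⁻¹)) := by
    intro p
    refine HasSum.mul_left _ ?_
    have hp := (qq_pos p.1).le
    have h3 := hasSum_geometric_of_lt_one (r := (qq p.1 : ℝ) ^ (-σ)) (by positivity) (hlt p)
    refine (h3.mul_left ((qq p.1 : ℝ) ^ (-σ))).congr_fun fun k => ?_
    rw [rexp_LL, pow_succ]
    ring
  refine ⟨fun p => (hg p).summable, ?_⟩
  refine Summable.of_nonneg_of_le (fun p => tsum_nonneg fun k => mul_nonneg (hB p) (Real.exp_pos _).le)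
    (fun p => ?_) (h.mul_right (1 - 2 ^ (-σ))⁻¹)
  rw [(hg p).tsum_eq, mul_assoc]
  refine mul_le_mul_of_nonneg_left (mul_le_mul_of_nonneg_left ?_ (by positivity)) (hB p)
  refine inv_anti₀ (by linarith) ?_
  have := qq_rpow_le p.1 hσ.le
  linarith

/-- the coefficients -/
noncomputable def dd (α : PL S → Fin 3 → ℂ) (x : PL S × ℕ) : ℝ :=
  (‖∑ i, α x.1 i ^ (x.2 + 1)‖ ^ 2 - 1) / ((x.2 : ℝ) + 1)

theorem logAd_eq (α : PL S → Fin 3 → ℂ) (s : ℂ) : logAd α s = DS (dd α) LL s := by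
  unfold logAd DS
  refine tsum_congr fun x => ?_
  rw [exp_LL]
  rfl

omit [NumberField K] in
theorem small_nonneg (α : PL S → Fin 3 → ℂ) (v : PL S) : 0 ≤ small α v := le_max_left _ _

omit [NumberField K] in
theorem small_le (α : PL S → Fin 3 → ℂ) (v : PL S) : small α v ≤ 1 :=
  max_le zero_le_one (by have := sq_nonneg ‖∑ i, α v i‖; linarith)

variable {α : PL S → Fin 3 → ℂ}

theorem small_of_not (h : CuspidalGL3 α) {v : PL S} (hv : ¬ Tempered α v) : small α v = 0 := by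
  have h1 := nontemp_pow (h.unitary v) hv 1
  simp only [pow_one] at h1
  exact max_eq_left (by linarith)

theorem summable_abs (h : CuspidalGL3 α) {t : ℝ} (ht : 1 < t) :
    Summable fun x => |dd α x| * Real.exp (-(t * LL x)) := by
  have h1 := h.summable t ht
  have h2 := summable_pp (S := S) (fun _ => 1) (fun _ => zero_le_one) (by linarith : (0 : ℝ) < t)
    ((summable_qq ht).congr fun p => (one_mul _).symm)
  refine Summable.of_nonneg_of_le (fun x => by positivity) (fun x => ?_) (h1.add h2)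
  rw [rexp_LL, ← add_mul]
  refine mul_le_mul_of_nonneg_right ?_ (by have := (qq_pos x.1.1).le; positivity)
  unfold dd
  have hk : (0 : ℝ) < (x.2 : ℝ) + 1 := by positivity
  rw [abs_le]
  have h3 : 0 ≤ ‖∑ i, α x.1 i ^ (x.2 + 1)‖ ^ 2 := sq_nonneg _
  constructor
  · rw [le_div_iff₀ hk]
    have h4 : 0 ≤ ‖∑ i, α x.1 i ^ (x.2 + 1)‖ ^ 2 / ((x.2 : ℝ) + 1) := by positivity
    have h5 : (0 : ℝ) ≤ x.2 := Nat.cast_nonneg _
    nlinarith
  · rw [sub_div]
    have h4 : 0 ≤ 1 / ((x.2 : ℝ) + 1) := by positivity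
    linarith

/-- the negative part -/
theorem summable_neg (h : CuspidalGL3 α) {s₁ : ℝ} (hs₁ : 1 / 2 ≤ s₁)
    (hB : Summable fun v : PL S => small α v * (qq v.1 : ℝ) ^ (-s₁)) {t : ℝ} (ht : s₁ < t) :
    Summable fun x => |min (dd α x) 0| * Real.exp (-(t * LL x)) := by
  have ht0 : 0 < t := by linarith
  have hB' : Summable fun v : PL S => small α v * (qq v.1 : ℝ) ^ (-t) := by
    refine Summable.of_nonneg_of_le (fun v => mul_nonneg (small_nonneg α v)
      (by have := (qq_pos v.1).le; positivity)) (fun v => ?_) hB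
    refine mul_le_mul_of_nonneg_left ?_ (small_nonneg α v)
    exact Real.rpow_le_rpow_of_exponent_le (one_lt_qq v.1).le (by linarith)
  have h1 := summable_pp (fun v => small α v) (small_nonneg α) ht0 hB'
  obtain ⟨ε, hε⟩ : ∃ ε : ℝ, ε = (2 * t - 1) / (2 * t) := ⟨_, rfl⟩
  have hε0 : 0 < ε := by rw [hε]; apply div_pos <;> linarith
  have hε1 : ε < 1 := by rw [hε, div_lt_one (by linarith)]; linarith
  have hεt : t * (2 - ε) = t + 1 / 2 := by rw [hε]; field_simp; ring
  have h2 := summable_pp (S := S) (fun v => (qq v.1 : ℝ) ^ (-(2 * t * (1 - ε))))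
    (fun v => by have := (qq_pos v.1).le; positivity) (mul_pos ht0 hε0) (by
      refine (summable_qq (S := S) (by linarith : (1 : ℝ) < t + 1 / 2)).congr fun v => ?_
      rw [← Real.rpow_add (qq_pos v.1)]
      congr 1
      rw [← hεt]
      ring)
  refine Summable.of_nonneg_of_le (fun x => by positivity) (fun x => ?_) (h1.add h2)
  obtain ⟨v, k⟩ := x
  have hL := LL_nonneg (v, k)
  have e0 : 0 ≤ small α v * Real.exp (-(t * LL (v, k))) :=
    mul_nonneg (small_nonneg α v) (Real.exp_pos _).le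
  have e1 : 0 ≤ (qq v.1 : ℝ) ^ (-(2 * t * (1 - ε))) * Real.exp (-(t * ε * LL (v, k))) := by
    have := (qq_pos v.1).le
    positivity
  rcases k with _ | k
  · -- first power
    refine le_trans ?_ (le_add_of_nonneg_right e1)
    refine mul_le_mul_of_nonneg_right ?_ (Real.exp_pos _).le
    unfold dd small
    simp only [zero_add, pow_one, Nat.cast_zero, div_one]
    rcases le_total (‖∑ i, α v i‖ ^ 2 - 1) 0 with h3 | h3
    · rw [min_eq_left h3, abs_of_nonpos h3]
      exact le_max_of_le_right (by linarith)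
    · rw [min_eq_right h3, abs_zero]
      exact le_max_left _ _
  · refine le_trans ?_ (le_add_of_nonneg_left e0)
    have h3 : |min (dd α (v, k + 1)) 0| ≤ 1 := by
      unfold dd
      have hk : (0 : ℝ) < ((k + 1 : ℕ) : ℝ) + 1 := by positivity
      rw [abs_of_nonpos (min_le_right _ _), neg_le, le_min_iff]
      refine ⟨?_, by norm_num⟩
      simp only
      rw [le_div_iff₀ hk]
      have h4 : 0 ≤ ‖∑ i, α v i ^ (k + 1 + 1)‖ ^ 2 := sq_nonneg _
      have h5 : (0 : ℝ) ≤ ((k + 1 : ℕ) : ℝ) := Nat.cast_nonneg _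
      linarith
    refine (mul_le_of_le_one_left (Real.exp_pos _).le h3).trans ?_
    rw [Real.rpow_def_of_pos (qq_pos v.1), ← Real.exp_add, Real.exp_le_exp]
    unfold LL
    simp only
    have h6 : 0 ≤ Real.log (qq v.1 : ℝ) := Real.log_nonneg (one_lt_qq v.1).le
    have h7 : 0 ≤ t * (1 - ε) * (k : ℝ) * Real.log (qq v.1 : ℝ) := by
      have : 0 ≤ 1 - ε := by linarith
      positivity
    push_cast
    nlinarith

theorem countable_primes (K : Type*) [Field K] [NumberField K] :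
    Countable (HeightOneSpectrum (𝓞 K)) := by
  rw [← Set.countable_univ_iff]
  have h1 : (Set.univ : Set (HeightOneSpectrum (𝓞 K))) ⊆
      ⋃ b : ℕ, {v | H921R2.TatePole.nm v ≤ b} := fun v _ =>
    Set.mem_iUnion.2 ⟨H921R2.TatePole.nm v, Set.mem_ofPred_eq ▸ le_refl _⟩
  exact (Set.countable_iUnion fun b => (finite_nm_le K b).countable).mono h1

/-- absolute convergence to the right of `s₁` -/
theorem summable_all (h : CuspidalGL3 α) {s₁ : ℝ} (hs₁ : 1 / 2 ≤ s₁)
    (hB : Summable fun v : PL S => small α v * (qq v.1 : ℝ) ^ (-s₁)) :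
    (∀ t, s₁ < t → Summable fun x => |dd α x| * Real.exp (-(t * LL x))) ∧
    ∀ A : ℂ → ℂ, AnalyticOnNhd ℂ A {s | 1 / 2 ≤ s.re} →
      (∀ s : ℂ, 1 < s.re → A s = Complex.exp (logAd α s)) →
      ∀ t : ℝ, s₁ < t → A t = ((Real.exp (∑' x, dd α x * Real.exp (-(t * LL x))) : ℝ) : ℂ) := by
  have := countable_primes K
  have key : ∀ A : ℂ → ℂ, AnalyticOnNhd ℂ A {s | 1 / 2 ≤ s.re} →
      (∀ s : ℂ, 1 < s.re → A s = Complex.exp (logAd α s)) →
      DifferentiableOn ℂ A {s | s₁ < s.re} ∧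
      (∀ s : ℂ, 1 < s.re → Complex.exp (DS (dd α) LL s) * (fun _ => (1 : ℂ)) s = A s) := by
    intro A hA hid
    refine ⟨?_, ?_⟩
    · refine (hA.differentiableOn).mono fun s hs => ?_
      have hs' : s₁ < s.re := hs
      show 1 / 2 ≤ s.re
      linarith
    · intro s hs
      rw [hid s hs, logAd_eq, mul_one]
  obtain ⟨A, hA, hid⟩ := h.adjoint
  have k1 := key A hA hid
  have h1 := extend (LL_nonneg (S := S)) (fun t ht => summable_abs h ht)
    (fun t ht => summable_neg h hs₁ hB ht) k1.1 (differentiableOn_const (1 : ℂ))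
    (fun t _ => one_ne_zero) k1.2
  refine ⟨h1, fun A hA hid t ht => ?_⟩
  have k2 := key A hA hid
  have h2 := extend_id (LL_nonneg (S := S)) h1 k2.1 (differentiableOn_const (1 : ℂ)) k2.2 (t : ℂ)
    (by simpa using ht)
  rw [← h2, DS_real, mul_one]
  push_cast
  rfl

end Pool.Agent.TH861.GL3
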